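import Pool.Agent.Helper26.WR.Stmts

set_option autoImplicit false

namespace Pool.Agent.Helper26.WR

open Pool.Agent.Helper21.DN

universe u

/-- the action of `g` on functions -/
def wr_gen_act {G Q k : Type u} [Group G] [MulAction G Q] (g : G) (b : Q → k) : Q → k :=
  fun q => b (g⁻¹ • q)

theorem wr_gen_fix {p : ℕ} [Fact p.Prime] {G : Type u} [Group G] (hG : IsPGroup p G)
    [Finite G] {Q : Type u} [MulAction G Q] [Finite Q] [MulAction.IsPretransitive G Q]
    {k : Type u} [Field k] [CharP k p] (R : AddSubgroup (Q → k))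
    (hR : ∀ b ∈ R, ∀ g : G, wr_gen_act g b ∈ R) (b0 : Q → k)
    (hb0 : b0 ∈ R) (h0 : b0 ≠ 0) : ∃ c : k, c ≠ 0 ∧ (fun _ => c) ∈ R := by
  classical
  letI : Algebra (ZMod p) k := ZMod.algebra k p
  set S : Set (Q → k) := Set.range (fun g : G => wr_gen_act g b0) with hS
  have hSfin : S.Finite := Set.finite_range _
  set X : Submodule (ZMod p) (Q → k) := Submodule.span (ZMod p) S with hX
  haveI : FiniteDimensional (ZMod p) X := FiniteDimensional.span_of_finite _ hSfin
  haveI : Finite X := Module.finite_of_finite (ZMod p)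
  have hXR : ∀ x ∈ X, x ∈ R := by
    intro x hx
    have h1 : X ≤ AddSubgroup.toZModSubmodule p R := by
      refine Submodule.span_le.2 ?_
      rintro _ ⟨g, rfl⟩
      exact hR b0 hb0 g
    exact h1 hx
  have hstab : ∀ (g : G) (x : Q → k), x ∈ X → wr_gen_act g x ∈ X := by
    intro g x hx
    refine Submodule.span_induction (p := fun x _ => wr_gen_act g x ∈ X) ?_ ?_ ?_ ?_ hx
    · rintro _ ⟨g', rfl⟩
      have : wr_gen_act g (wr_gen_act g' b0) = wr_gen_act (g * g') b0 := by
        funext q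
        simp only [wr_gen_act, mul_inv_rev, mul_smul]
      rw [this]
      exact Submodule.subset_span ⟨g * g', rfl⟩
    · exact X.zero_mem
    · intro x y _ _ h1 h2
      exact X.add_mem h1 h2
    · intro c x _ h1
      exact X.smul_mem c h1
  letI act : MulAction G X :=
    { smul := fun g x => ⟨wr_gen_act g x.1, hstab g x.1 x.2⟩
      one_smul := fun x => by
        apply Subtype.ext
        funext q
        change x.1 ((1 : G)⁻¹ • q) = x.1 q
        simp
      mul_smul := fun g g' x => by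
        apply Subtype.ext
        funext q
        change x.1 ((g * g')⁻¹ • q) = x.1 (g'⁻¹ • (g⁻¹ • q))
        rw [mul_inv_rev, mul_smul] }
  have hb0X : b0 ∈ X := by
    refine Submodule.subset_span ⟨1, ?_⟩
    funext q
    simp [wr_gen_act]
  have hcard : p ∣ Nat.card X := by
    have h1 : addOrderOf (⟨b0, hb0X⟩ : X) = p := by
      refine addOrderOf_eq_prime ?_ ?_
      · apply Subtype.ext
        funext q
        simp
      · intro h
        exact h0 (congrArg Subtype.val h)
    have h2 : addOrderOf (⟨b0, hb0X⟩ : X) ∣ Nat.card X := addOrderOf_dvd_natCard _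
    rwa [h1] at h2
  have hzero : (0 : X) ∈ MulAction.fixedPoints G X := by
    intro g
    rfl
  obtain ⟨b, hb, hne⟩ := hG.exists_fixed_point_of_prime_dvd_card_of_fixed_point X hcard hzero
  have hb' : ∀ (g : G) (q : Q), b.1 (g⁻¹ • q) = b.1 q := by
    intro g q
    have h1 := congrArg Subtype.val (hb g)
    exact congrFun h1 q
  have hbne : b.1 ≠ 0 := by
    intro h
    apply hne
    apply Subtype.ext
    exact h.symm
  obtain ⟨q0, hq0⟩ := Function.ne_iff.1 hbne
  refine ⟨b.1 q0, hq0, ?_⟩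
  have h2 : (fun _ => b.1 q0) = b.1 := by
    funext q
    obtain ⟨g, hg⟩ := MulAction.exists_smul_eq G q0 q
    have h3 := hb' g q
    rw [← h3, ← hg, inv_smul_smul]
  rw [h2]
  exact hXR _ b.2

theorem wr_gen_main {p : ℕ} [Fact p.Prime] {k K L : Type u} [Field k] [CharP k p] [Field K]
    [Field L] [Algebra K L] [FiniteDimensional K L] [IsGalois K L] (κ : k →+* K)
    (v : AddValuation L (WithTop ℤ)) (hRam : Ram κ v) (hP : IsPGroup p (L ≃ₐ[K] L))
    (H : Subgroup (L ≃ₐ[K] L)) (W : Type) [Fintype W] (τ : W → (L ≃ₐ[K] L))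
    (hτ : Function.Bijective fun w => (QuotientGroup.mk (τ w) : (L ≃ₐ[K] L) ⧸ H))
    (U : L) (hU : ∀ h ∈ H, h U = U) (hneg : v (∑ w, τ w U) < 0) (b : W → k) (hb : b ≠ 0)
    (hv : 0 ≤ v (∑ w, algebraMap K L (κ (b w)) * τ w U)) : False := by
  classical
  set e : W ≃ (L ≃ₐ[K] L) ⧸ H := Equiv.ofBijective _ hτ with he
  haveI : Fintype ((L ≃ₐ[K] L) ⧸ H) := Fintype.ofEquiv W e
  haveI : Finite (L ≃ₐ[K] L) := inferInstance
  set F : (L ≃ₐ[K] L) ⧸ H → L := fun q => (Quotient.out q) U with hF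
  have hF1 : ∀ g : L ≃ₐ[K] L, F (QuotientGroup.mk g) = g U := by
    intro g
    obtain ⟨h, hh⟩ := QuotientGroup.mk_out_eq_mul H g
    have h1 : F (QuotientGroup.mk g) = (g * (h : L ≃ₐ[K] L)) U := by
      rw [← hh]
    rw [h1, AlgEquiv.mul_apply, hU _ h.2]
  have hF2 : ∀ (g : L ≃ₐ[K] L) (q : (L ≃ₐ[K] L) ⧸ H), g (F q) = F (g • q) := by
    intro g q
    obtain ⟨g', rfl⟩ := QuotientGroup.mk_surjective q
    rw [hF1, MulAction.Quotient.smul_mk, smul_eq_mul, hF1, AlgEquiv.mul_apply]
  set Θ : ((L ≃ₐ[K] L) ⧸ H → k) → L := fun b => ∑ q, algebraMap K L (κ (b q)) * F q with hΘ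
  have hΘ1 : ∀ b : W → k, (∑ w, algebraMap K L (κ (b w)) * τ w U) = Θ (fun q => b (e.symm q)) := by
    intro b
    rw [hΘ]
    simp only
    rw [← Equiv.sum_comp e]
    refine Finset.sum_congr rfl fun w _ => ?_
    rw [Equiv.symm_apply_apply]
    congr 1
    exact (hF1 (τ w)).symm
  have hΘadd : ∀ b b', Θ (b + b') = Θ b + Θ b' := by
    intro b b'
    simp only [hΘ, Pi.add_apply, map_add, add_mul, Finset.sum_add_distrib]
  have hΘneg : ∀ b, Θ (-b) = -Θ b := by
    intro b
    simp only [hΘ, Pi.neg_apply, map_neg, neg_mul, Finset.sum_neg_distrib]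
  have hΘzero : Θ 0 = 0 := by
    simp only [hΘ, Pi.zero_apply, map_zero, zero_mul, Finset.sum_const_zero]
  have hΘact : ∀ (g : L ≃ₐ[K] L) b, Θ (wr_gen_act g b) = g (Θ b) := by
    intro g b
    simp only [hΘ, map_sum, map_mul, AlgEquiv.commutes, hF2]
    rw [← Equiv.sum_comp (MulAction.toPerm g)]
    refine Finset.sum_congr rfl fun q _ => ?_
    simp only [wr_gen_act, MulAction.toPerm_apply, inv_smul_smul]
  let R : AddSubgroup ((L ≃ₐ[K] L) ⧸ H → k) :=
    { carrier := {b | 0 ≤ v (Θ b)}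
      zero_mem' := by
        change 0 ≤ v (Θ 0)
        rw [hΘzero, AddValuation.map_zero]
        exact le_top
      add_mem' := by
        intro b b' h h'
        change 0 ≤ v (Θ (b + b'))
        rw [hΘadd]
        exact AddValuation.map_le_add v h h'
      neg_mem' := by
        intro b h
        change 0 ≤ v (Θ (-b))
        rw [hΘneg, AddValuation.map_neg]
        exact h }
  have hstab : ∀ b ∈ R, ∀ g : L ≃ₐ[K] L, wr_gen_act g b ∈ R := by
    intro b h g
    change 0 ≤ v (Θ (wr_gen_act g b))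
    rw [hΘact, hRam.inv]
    exact h
  have hb0 : (fun q => b (e.symm q)) ∈ R := by
    change 0 ≤ v (Θ (fun q => b (e.symm q)))
    rw [← hΘ1]
    exact hv
  have hb0ne : (fun q => b (e.symm q)) ≠ 0 := by
    intro h
    apply hb
    funext w
    have := congrFun h (e w)
    simpa using this
  obtain ⟨c, hc, hcR⟩ := wr_gen_fix hP R hstab _ hb0 hb0ne
  have hcR' : 0 ≤ v (Θ (fun _ => c)) := hcR
  have h1 : Θ (fun _ => c) = algebraMap K L (κ c) * ∑ w, τ w U := by
    have h2 := hΘ1 (fun _ => c)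
    rw [← h2, Finset.mul_sum]
  rw [h1, AddValuation.map_mul] at hcR'
  have h3 : v (algebraMap K L (κ c)) = 0 := hRam.tv.alg c hc
  rw [h3, zero_add] at hcR'
  exact absurd hneg (not_lt.2 hcR')

theorem st_GEN (h1 : ST_LAM.{u}) : ST_GEN.{u} := by
  intro p _ k _ _ _ L _ _ _ _ v hval hRam hP H W _ τ hτ J hJ T hT hneg a ha
  by_contra hinf
  obtain ⟨w1, j, hjJ, hne⟩ := ha
  have hset : {l : k | ∃ h : L, h ^ p - h = ∑ w, ∑ j ∈ J,
      algebraMap (LaurentSeries k) L (κ0 k (a w j)) *
      (algebraMap (LaurentSeries k) L (κ0 k l) * τ w T) ^ j} =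
      {l : k | ∃ h : L, h ^ p - h = ∑ j ∈ J,
        ((algebraMap (LaurentSeries k) L).comp (κ0 k)) l ^ j *
        (∑ w, algebraMap (LaurentSeries k) L (κ0 k (a w j)) * τ w (T ^ j))} := by
    ext l
    have : (∑ w, ∑ j ∈ J, algebraMap (LaurentSeries k) L (κ0 k (a w j)) *
        (algebraMap (LaurentSeries k) L (κ0 k l) * τ w T) ^ j) =
        ∑ j ∈ J, ((algebraMap (LaurentSeries k) L).comp (κ0 k)) l ^ j *
        (∑ w, algebraMap (LaurentSeries k) L (κ0 k (a w j)) * τ w (T ^ j)) := by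
      rw [Finset.sum_comm]
      refine Finset.sum_congr rfl fun j _ => ?_
      rw [Finset.mul_sum]
      refine Finset.sum_congr rfl fun w _ => ?_
      rw [mul_pow, map_pow, RingHom.comp_apply]
      ring
    simp only [Set.mem_setOf_eq, this]
  rw [hset] at hinf
  have hy := h1 p k L ((algebraMap (LaurentSeries k) L).comp (κ0 k)) v hRam.tv J hJ
    (fun j => ∑ w, algebraMap (LaurentSeries k) L (κ0 k (a w j)) * τ w (T ^ j)) hinf j hjJ
  refine wr_gen_main (κ0 k) v hRam hP H W τ hτ (T ^ j) ?_ (hneg j hjJ) (fun w => a w j) ?_ hy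
  · intro h hh
    rw [map_pow, hT h hh]
  · intro h
    exact hne (congrFun h w1)

end Pool.Agent.Helper26.WR
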